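import Pool.Agent.Helper51.LPS.St

/-!
# Project LPS, module TRL: translation of an interior point to the origin
-/

set_option autoImplicit false

namespace Pool.Agent.Helper25.LPS

open MeasureTheory Pool.Helper51.PSB Pool.Helper51.LPS

private theorem Main_isLUB {S : Set ℝ} {v c : ℝ} (h : IsLUB S v) :
    IsLUB ((fun t => t + c) '' S) (v + c) := by
  have := (OrderIso.addRight c).isLUB_image' (s := S) (x := v)
  exact this.2 h

/-- TRL. -/
theorem hTrl : StZeroL → StTrl := by
  intro hZero n hn K p A e ε hK hKc hint he hε hlub hA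
  obtain ⟨k, rfl⟩ : ∃ k, n = k + 3 := ⟨n - 3, by omega⟩
  obtain ⟨x0, hx0⟩ := hint
  have hd : (((k + 3 : ℕ) : ℝ) - 1) = (k : ℝ) + 2 := by push_cast; ring
  rw [hd] at hA
  obtain ⟨c, r, hcr⟩ := hZero k ((fun x => -x0 + x) '' K)
    (p - ∑ l, MvPolynomial.C (x0 l) * MvPolynomial.X l) A e ε (hK.translate (-x0))
    (hKc.image (continuous_const.add continuous_id)) (by
      have h1 := (Homeomorph.addLeft (-x0)).image_interior K
      have h2 : (0 : EuclideanSpace ℝ (Fin (k + 3))) ∈ (Homeomorph.addLeft (-x0)) '' interior K :=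
        ⟨x0, hx0, by simp⟩
      rw [h1] at h2
      exact h2) he hε (by
      intro u hu hb
      have h1 := Main_isLUB (c := -(inner ℝ x0 u : ℝ)) (hlub u hu hb)
      have h2 : MvPolynomial.eval (fun l => u l) (p - ∑ l, MvPolynomial.C (x0 l) * MvPolynomial.X l)
          = MvPolynomial.eval (fun l => u l) p + -(inner ℝ x0 u : ℝ) := by
        rw [map_sub, map_sum, sub_eq_add_neg]
        congr 2
        rw [PiLp.inner_apply]
        refine Finset.sum_congr rfl fun l _ => ?_
        simp [mul_comm]
      have h3 : (fun x => (inner ℝ x u : ℝ)) '' ((fun x => -x0 + x) '' K) =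
          (fun t => t + -(inner ℝ x0 u : ℝ)) '' ((fun x => (inner ℝ x u : ℝ)) '' K) := by
        rw [Set.image_image, Set.image_image]
        refine Set.image_congr fun x _ => ?_
        rw [inner_add_left, inner_neg_left, add_comm]
      rw [h2, h3]
      exact h1) (by
      intro u hu
      rw [← hA u hu]
      have h3 : (fun x : W k => x - (inner ℝ x u : ℝ) • u) '' ((fun x => -x0 + x) '' K) =
          (fun z => (-x0 + (inner ℝ x0 u : ℝ) • u) + z) ''
            ((fun x : W k => x - (inner ℝ x u : ℝ) • u) '' K) := by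
        rw [Set.image_image, Set.image_image]
        refine Set.image_congr fun x _ => ?_
        rw [inner_add_left, inner_neg_left, add_smul, neg_smul]
        abel
      rw [h3]
      exact (IsometryEquiv.addLeft _).isometry.hausdorffMeasure_image (Or.inl (by positivity)) _)
  refine ⟨x0 + c, r, fun u hu hb => ?_⟩
  have h1 := Main_isLUB (c := (inner ℝ x0 u : ℝ)) (hcr u hu hb)
  have h3 : (fun t => t + (inner ℝ x0 u : ℝ)) '' ((fun x => (inner ℝ x u : ℝ)) ''
      ((fun x => -x0 + x) '' K)) = (fun x => (inner ℝ x u : ℝ)) '' K := by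
    rw [Set.image_image, Set.image_image]
    refine Set.image_congr fun x _ => ?_
    rw [inner_add_left, inner_neg_left]
    ring
  rw [h3] at h1
  have h4 : (inner ℝ (x0 + c) u : ℝ) + r = (inner ℝ c u : ℝ) + r + (inner ℝ x0 u : ℝ) := by
    rw [inner_add_left]
    ring
  rw [h4]
  exact h1

end Pool.Agent.Helper25.LPS
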